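import Mathlib
import Pool.Agent.R243.BM.Pot
import Pool.Agent.R243.BM.Atoms

set_option autoImplicit false

/-!
# Q1: every compact set of positive Riesz capacity carries a Riesz Bernstein-Markov measure

The measure is discrete: point masses at the points of finer and finer finite nets of `K`, with
weights such that every ball of radius `r ≤ 1` centred on `K` has measure at least `c r^T`.
The lower bound `‖f‖_K ≥ exp (-C n)` on `P_n(K)`, which comes from a compact subset of `K` carrying
a measure of bounded potential, shows that the maximum point of `f` stays far from all the `x_j` on
the scale at which the potential of the points would move by more than `o(n)`.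
-/

namespace Pool.Agent.Results.MP_a7495c_an.CapacityYes

open Filter Topology MeasureTheory Set
open scoped ENNReal NNReal
open Pool.Agent.R243.BM

theorem result (α : ℝ) (hα : 0 < α) (d : ℕ) (K : Set (E d)) (hK : IsCompact K)
    (hcap : PositiveCapacity α K) : ∃ μ : Measure (E d), RieszBM α K μ ∧ IsDiscrete K μ := by
  obtain ⟨μ, h1, h2⟩ := exists_of_capacity hα hK hcap
  exact ⟨μ, h1, isDiscrete_of_isDiscreteOn h2⟩

end Pool.Agent.Results.MP_a7495c_an.CapacityYes
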