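import Mathlib
import Pool.Agent.R243.BM.Disc
import Pool.Agent.R243.BM.Atoms

set_option autoImplicit false

/-!
# Q2: if a compact set carries a Riesz Bernstein-Markov measure, it carries a discrete one

For each `n` the map `f ↦ ∫ f dμ` on the compact family `P_n(K)` is approximated within a factor
two by a discrete measure of no larger mass; the sum of these measures with polynomial weights is
the discrete measure wanted.
-/

namespace Pool.Agent.Results.MP_a7495c_an.DiscreteYes

open Filter Topology MeasureTheory Set
open scoped ENNReal NNReal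
open Pool.Agent.R243.BM

theorem result (α : ℝ) (hα : 0 < α) (d : ℕ) (K : Set (E d)) (hK : IsCompact K)
    (hex : ∃ μ : Measure (E d), RieszBM α K μ) :
    ∃ μ : Measure (E d), RieszBM α K μ ∧ IsDiscrete K μ := by
  obtain ⟨μ, hμ⟩ := hex
  obtain ⟨μ', h1, h2⟩ := discrete_of_exists hα hK hμ
  exact ⟨μ', h1, isDiscrete_of_isDiscreteOn h2⟩

end Pool.Agent.Results.MP_a7495c_an.DiscreteYes
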